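import Pool.Agent.H72.AB.Count
import Pool.Agent.H77.AB.MixL
import Pool.Agent.H99.AB.SymRel
import Pool.Agent.H3.AB.Scale
import Pool.Agent.H66.AB.ConjM

/-!
# Project FD, version 2: the relative master theorem

`F ⊆ ℚ(ζ_f)`, `K ⊇ F`, `P = N_{K/F}(a + bX) ∈ 𝓞_F[X]`, `w : 𝓞_F → Ω`. Outside a set of primes of density zero, which
depends only on `f` and `[K:F]`:
* `master_real`: `F` totally real, every solution (`CopAt`): the multiplicities of `x`, `1/x`, `1-x` as roots of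
  `w(P)` are equal, `x ≠ 0, 1`.
* `master_first`: first case, `F` arbitrary with complex conjugation `j`: the multiplicity of `x` as a root of
  `(w ∘ j)(P)` is the one of `1/x` and of `1-x` as a root of `w(P)`.
-/

namespace H72AB

open Polynomial NumberField H9FC H9AB Pool.Agent.H71.FD

universe u v w

/-- complex conjugation of `L` extends the one of `F` -/
theorem cj_ext (f : ℕ) [NeZero f] (F : Type*) [Field F] (L : Type*) [Field L] [NumberField L]
    [IsCyclotomicExtension {f} ℚ L] [Algebra F L] (j : F →+* F)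
    (hj : ∀ φ : F →+* ℂ, ∀ x, φ (j x) = (starRingEnd ℂ) (φ x)) (x : F) :
    cjM f L (algebraMap F L x) = algebraMap F L (j x) := by
  obtain ⟨φ⟩ : Nonempty (L →+* ℂ) := inferInstance
  apply φ.injective
  rw [H66AB.map_cjM_eq_conj f L φ]
  exact (hj (φ.comp (algebraMap F L)) x).symm

section

variable {K : Type*} [Field K] [NumberField K] {p : ℕ} {Ω : Type*} [Field Ω] [CharP Ω p]

omit [NumberField K] [CharP Ω p] in
theorem not_both {a b c : 𝓞 K} (χ : 𝓞 K →+* Ω) (hs : χ a + χ b + χ c = 0) (hC : ¬ (χ a = 0 ∧ χ b = 0 ∧ χ c = 0)) :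
    χ a ≠ 0 ∨ χ b ≠ 0 := by
  by_contra hcon
  push Not at hcon
  obtain ⟨h1, h2⟩ := hcon
  rw [h1, h2, zero_add, zero_add] at hs
  exact hC ⟨h1, h2, hs⟩

theorem cop_hom' [Fact p.Prime] {a b c : 𝓞 K} (hC : CopAt K p a b c) (χ : 𝓞 K →+* Ω) :
    ¬ (χ a = 0 ∧ χ b = 0 ∧ χ c = 0) := by
  rintro ⟨h1, h2, h3⟩
  refine hC (RingHom.ker χ) (RingHom.ker_isPrime χ) ?_ ⟨h1, h2, h3⟩
  rw [RingHom.mem_ker, map_natCast]
  exact CharP.cast_eq_zero Ω p

end

/-- the values at a zero `a + x b = 0`, `x ≠ 0, 1` -/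
theorem vals {Ω : Type*} [Field Ω] {α β γ x : Ω} (hs : α + β + γ = 0) (hC : ¬ (α = 0 ∧ β = 0 ∧ γ = 0))
    (hx0 : x ≠ 0) (hx1 : x ≠ 1) (h : α + x * β = 0) : α ≠ 0 ∧ β ≠ 0 ∧ γ ≠ 0 := by
  have hβ : β ≠ 0 := by
    intro h0
    rw [h0, mul_zero, add_zero] at h
    rw [h, h0, zero_add, zero_add] at hs
    exact hC ⟨h, h0, hs⟩
  have hα : α = -(x * β) := eq_neg_of_add_eq_zero_left h
  have hγ : γ = (x - 1) * β := by linear_combination hs - h
  refine ⟨?_, hβ, ?_⟩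
  · rw [hα]
    exact neg_ne_zero.2 (mul_ne_zero hx0 hβ)
  · rw [hγ]
    exact mul_ne_zero (sub_ne_zero.2 hx1) hβ

/-- `T T' = 1` for the type `-b/a` -/
theorem move_inv {Ω : Type*} [Field Ω] {α β α' β' x : Ω} (hα : α ≠ 0) (hα' : α' ≠ 0) (hx0 : x ≠ 0)
    (h : α + x * β = 0) (hT : -β' / α' * (-β / α) = 1) : α' + x⁻¹ * β' = 0 := by
  field_simp at hT ⊢
  have h1 : α' * α = β' * β := by linear_combination -hT
  have hβ : β ≠ 0 := by
    intro h0
    rw [h0, mul_zero, add_zero] at h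
    exact hα h
  have h2 : β * (α' * x + β') = 0 := by linear_combination α' * h - h1
  have h3 := (mul_eq_zero.1 h2).resolve_left hβ
  linear_combination h3

/-- `(1 - T) (1 - T') = 1`, type `-c/a` -/
theorem move_sub {Ω : Type*} [Field Ω] {α β γ α' β' γ' x : Ω} (hs : α + β + γ = 0) (hs' : α' + β' + γ' = 0)
    (hα : α ≠ 0) (hα' : α' ≠ 0) (h : α + x * β = 0) (hT : -γ' / α' * (-γ / α) = 1) :
    α' + (1 - x) * β' = 0 := by
  field_simp at hT
  have h1 : γ' * γ = α' * α := by linear_combination hT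
  have hβ : β ≠ 0 := by
    intro h0
    rw [h0, mul_zero, add_zero] at h
    exact hα h
  have hγ : γ = (x - 1) * β := by linear_combination hs - h
  have h2 : β * (α' + (1 - x) * β') = 0 := by
    have h3 : γ' = -α' - β' := by linear_combination hs'
    rw [hγ, h3] at h1
    linear_combination h1 + α' * h
  exact (mul_eq_zero.1 h2).resolve_left hβ

section env

variable (f : ℕ) [NeZero f]

/-- the compositum with `L = ℚ(ζ_f)` and the families of the places -/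
theorem exists_env (F : Type u) (K : Type v) (L : Type w) [Field F] [NumberField F] [Field K] [NumberField K]
    [Field L] [NumberField L] [IsCyclotomicExtension {f} ℚ L] [Algebra F K] [Algebra F L] :
    ∃ (K' : Type v) (_ : Field K') (_ : NumberField K') (_ : Algebra F K') (_ : Algebra K K') (_ : Algebra L K'),
      IsScalarTower F K K' ∧ IsScalarTower F L K' ∧ Module.finrank L K' ≤ Module.finrank F K * f ∧
      ∀ (Ω : Type) [Field Ω] [IsAlgClosed Ω] (w : 𝓞 F →+* Ω), ∃ (w₀ : 𝓞 L →+* Ω)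
        (ψ : (ZMod f)ˣ → Fin (Module.finrank L K') → (𝓞 K' →+* Ω)),
        w₀.comp (algebraMap (𝓞 F) (𝓞 L)) = w ∧
        ∀ g, ∀ x y : 𝓞 K', (nfR L K' x y).map (w₀.comp (actL f L g)) = ∏ i, (C (ψ g i x) + X * C (ψ g i y)) := by
  obtain ⟨K', iF, iN, iA, iK, iL, hs1, hs2, hd⟩ := exists_comp F K L
  have hst : IsScalarTower ℚ F L := IsScalarTower.of_algebraMap_eq' (Subsingleton.elim _ _)
  have hfF : FiniteDimensional F L := Module.Finite.of_restrictScalars_finite ℚ F L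
  refine ⟨K', iF, iN, iA, iK, iL, hs1, hs2, ?_, ?_⟩
  · have h1 : Module.finrank F L * Module.finrank L K' = Module.finrank F K' := Module.finrank_mul_finrank F L K'
    have h2 : Module.finrank ℚ F * Module.finrank F L = Module.finrank ℚ L := Module.finrank_mul_finrank ℚ F L
    have h3 : Module.finrank ℚ L = f.totient := IsCyclotomicExtension.Rat.finrank f L
    have h4 : Module.finrank F L ≤ f := by
      have h5 : 0 < Module.finrank ℚ F := Module.finrank_pos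
      calc Module.finrank F L ≤ Module.finrank ℚ F * Module.finrank F L := Nat.le_mul_of_pos_left _ h5
        _ = f.totient := by rw [h2, h3]
        _ ≤ f := Nat.totient_le f
    have h6 : 0 < Module.finrank F L := Module.finrank_pos
    calc Module.finrank L K' ≤ Module.finrank F L * Module.finrank L K' := Nat.le_mul_of_pos_left _ h6
      _ = Module.finrank F K' := h1
      _ ≤ Module.finrank F K * Module.finrank F L := hd
      _ ≤ Module.finrank F K * f := Nat.mul_le_mul_left _ h4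
  · intro Ω _ _ w
    obtain ⟨w₀, hw₀⟩ := exists_lift_hom F L Ω w
    choose ψ hψ using fun g => exists_relFam L K' Ω (w₀.comp (actL f L g))
    exact ⟨w₀, ψ, hw₀, fun g => (hψ g).2⟩

theorem neg_mem_HF (F : Type*) [Field F] (L : Type*) [Field L] [NumberField L]
    [IsCyclotomicExtension {f} ℚ L] [Algebra F L] (hreal : ∀ φ : F →+* ℂ, (starRingEnd ℂ).comp φ = φ)
    (g : (ZMod f)ˣ) (hg : g ∈ HF f F L) : -g ∈ HF f F L := by
  rw [mem_HF] at hg ⊢
  intro x
  have h1 : -g = -1 * g := by rw [neg_mul, one_mul]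
  rw [h1, map_mul]
  show cjM f L ((IsCyclotomicExtension.Rat.galEquivZMod f L).symm g (algebraMap F L x)) = _
  rw [hg x, cj_ext f F L (RingHom.id F) fun φ y => (DFunLike.congr_fun (hreal φ) y).symm]
  rfl

end env

open Classical in
/-- **The relative master theorem**, `F` totally real, all solutions. -/
theorem master_real (f : ℕ) (hf : 2 ≤ f) (d : ℕ) : ∃ B : ℕ → Prop, Null B ∧ ∀ p : ℕ, p.Prime → ¬ B p →
    ∀ (F : Type u) (K : Type v) [Field F] [NumberField F] [Field K] [NumberField K] [Algebra F K],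
    Nonempty (F →+* CyclotomicField f ℚ) → (∀ φ : F →+* ℂ, (starRingEnd ℂ).comp φ = φ) →
    Module.finrank F K ≤ d → ∀ a b c : 𝓞 K, FSol K p a b c → CopAt K p a b c →
    ∀ (Ω : Type) [Field Ω] [IsAlgClosed Ω] [CharP Ω p] (w : 𝓞 F →+* Ω) (x : Ω), x ≠ 0 → x ≠ 1 →
      rootMultiplicity x ((nfR F K a b).map w) = rootMultiplicity x⁻¹ ((nfR F K a b).map w) ∧
      rootMultiplicity x ((nfR F K a b).map w) = rootMultiplicity (1 - x) ((nfR F K a b).map w) := by
  have hfne : NeZero f := ⟨by omega⟩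
  have hfq : NeZero ((f : ℕ) : ℚ) := ⟨Nat.cast_ne_zero.2 (NeZero.ne f)⟩
  have hcyc : IsCyclotomicExtension {f} ℚ (CyclotomicField f ℚ) := CyclotomicField.isCyclotomicExtension f ℚ
  obtain ⟨c₀, hc₀, hc₀p⟩ := Nat.exists_infinite_primes (f + 1)
  have hc₀f : ¬ c₀ ∣ f := fun h => absurd (Nat.le_of_dvd (by omega) h) (by omega)
  refine ⟨fun p => H59AB.ABBadE f c₀ (Fintype.card (ZMod f)ˣ * (d * f)) p ∨ p ≤ max (max c₀ f) (2 * (d * f) + 5),
    ?_, ?_⟩
  · refine Null.or (H59AB.null_ABE (fun k _ _ => H22GW.gapW k) hc₀p hc₀f hf _) ?_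
    exact UD_of_bounded _ fun p _ hp => hp
  intro p hp hB F K _ _ _ _ _ ⟨ι⟩ hreal hdim a b c hF hC Ω _ _ _ w
  rw [not_or, not_le] at hB
  obtain ⟨hbad, hbig⟩ := hB
  have hfact : Fact p.Prime := ⟨hp⟩
  have hne : NeZero (f * p) := ⟨mul_ne_zero (NeZero.ne f) hp.ne_zero⟩
  have hp1 : c₀ < p := lt_of_le_of_lt ((le_max_left _ _).trans (le_max_left _ _)) hbig
  have hp2 : f < p := lt_of_le_of_lt ((le_max_right _ _).trans (le_max_left _ _)) hbig
  have hp3 : 2 * (d * f) + 5 < p := lt_of_le_of_lt (le_max_right _ _) hbig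
  have hpf : ¬ p ∣ f := fun h => absurd (Nat.le_of_dvd (by omega) h) (by omega)
  let _ : Algebra F (CyclotomicField f ℚ) := ι.toAlgebra
  obtain ⟨K', _, _, _, _, _, _, _, hn, henv⟩ := exists_env f F K (CyclotomicField f ℚ)
  obtain ⟨w₀, ψ, hw₀, hψ⟩ := henv Ω w
  have hnd : Module.finrank (CyclotomicField f ℚ) K' ≤ d * f := hn.trans (Nat.mul_le_mul_right _ hdim)
  let m : 𝓞 K →+* 𝓞 K' := algebraMap (𝓞 K) (𝓞 K')
  have hmι : ∀ z, m z = RingOfIntegers.mapRingHom (algebraMap K K') z := fun z => by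
    apply RingOfIntegers.coe_injective
    rfl
  have hF' : FSol K' p (m a) (m b) (m c) := by
    rw [hmι, hmι, hmι]
    exact H3AB.FSol_map (algebraMap K K') hF
  have hC' : CopAt K' p (m a) (m b) (m c) := H3AB.CopAt_map m hC
  have hs : ∀ g i, ψ g i (m a) + ψ g i (m b) + ψ g i (m c) = 0 := fun g i => fsol_hom hF' (ψ g i)
  have hcop : ∀ g i, ¬ (ψ g i (m a) = 0 ∧ ψ g i (m b) = 0 ∧ ψ g i (m c) = 0) := fun g i => cop_hom' hC' (ψ g i)
  have hcount := mult_count f F (CyclotomicField f ℚ) K K' w w₀ hw₀ ψ hψ a b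
    (fun g i => not_both (ψ g i) (hs g i) (hcop g i))
  have hpos : 0 < Module.finrank K K' := by
    have hfin : FiniteDimensional K K' := Module.Finite.of_restrictScalars_finite ℚ K K'
    exact Module.finrank_pos
  have hc₀' : c₀ < f * p := lt_of_lt_of_le hp1 (Nat.le_mul_of_pos_left p (by omega))
  obtain ⟨σ₁, hσ₁⟩ := H77AB.symE_mixed f p hpf (CyclotomicField f ℚ) K' (by omega) (m a) (m b) (m c) hF' hC' Ω w₀ ψ hψ
    c₀ hc₀p.one_lt.le hc₀' _ (Nat.mul_le_mul_left _ hnd) hbad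
  obtain ⟨σ₂, hσ₂⟩ := H77AB.symE_mixed f p hpf (CyclotomicField f ℚ) K' (by omega) (m a) (m c) (m b) hF'.rot.rot.swap
    hC'.rot.rot.swap Ω w₀ ψ hψ c₀ hc₀p.one_lt.le hc₀' _ (Nat.mul_le_mul_left _ hnd) hbad
  have hle : ∀ x : Ω, x ≠ 0 → x ≠ 1 →
      Module.finrank K K' * rootMultiplicity x ((nfR F K a b).map w) ≤
        Module.finrank K K' * rootMultiplicity x⁻¹ ((nfR F K a b).map w) ∧
      Module.finrank K K' * rootMultiplicity x ((nfR F K a b).map w) ≤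
        Module.finrank K K' * rootMultiplicity (1 - x) ((nfR F K a b).map w) := by
    intro x hx0 hx1
    constructor
    · rw [hcount, hcount]
      refine card_le_of_perm _ _ (H77AB.GP ψ (m a) (m b) (m c)) ?_ σ₁ ?_
      · intro v hv
        rw [H77AB.mem_GP]
        exact vals (hs v.1 v.2) (hcop v.1 v.2) hx0 hx1 hv.2
      · intro v hv
        obtain ⟨h1, h2⟩ := hσ₁ v
        obtain ⟨ha1, -, -⟩ := (H77AB.mem_GP ψ (m a) (m b) (m c) _).1 v.2
        obtain ⟨ha2, -, -⟩ := (H77AB.mem_GP ψ (m a) (m b) (m c) _).1 (σ₁ v).2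
        refine ⟨?_, move_inv ha1 ha2 hx0 hv.2 h2⟩
        rcases h1 with h1 | h1
        · rw [h1]; exact hv.1
        · rw [h1]; exact neg_mem_HF f F _ hreal _ hv.1
    · rw [hcount, hcount]
      refine card_le_of_perm _ _ (H77AB.GP ψ (m a) (m c) (m b)) ?_ σ₂ ?_
      · intro v hv
        rw [H77AB.mem_GP]
        obtain ⟨h1, h2, h3⟩ := vals (hs v.1 v.2) (hcop v.1 v.2) hx0 hx1 hv.2
        exact ⟨h1, h3, h2⟩
      · intro v hv
        obtain ⟨h1, h2⟩ := hσ₂ v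
        obtain ⟨ha1, -, -⟩ := (H77AB.mem_GP ψ (m a) (m c) (m b) _).1 v.2
        obtain ⟨ha2, -, -⟩ := (H77AB.mem_GP ψ (m a) (m c) (m b) _).1 (σ₂ v).2
        refine ⟨?_, move_sub (hs _ _) (hs _ _) ha1 ha2 hv.2 h2⟩
        rcases h1 with h1 | h1
        · rw [h1]; exact hv.1
        · rw [h1]; exact neg_mem_HF f F _ hreal _ hv.1
  intro x hx0 hx1
  have hi0 : x⁻¹ ≠ 0 := inv_ne_zero hx0
  have hi1 : x⁻¹ ≠ 1 := fun h => hx1 (inv_eq_one.1 h)
  have hj0 : 1 - x ≠ 0 := sub_ne_zero.2 (Ne.symm hx1)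
  have hj1 : 1 - x ≠ 1 := fun h => hx0 (by linear_combination -h)
  have h1 := (hle x hx0 hx1).1
  have h2 := (hle x⁻¹ hi0 hi1).1
  have h3 := (hle x hx0 hx1).2
  have h4 := (hle (1 - x) hj0 hj1).2
  rw [inv_inv] at h2
  rw [sub_sub_cancel] at h4
  exact ⟨Nat.eq_of_mul_eq_mul_left hpos (le_antisymm h1 h2), Nat.eq_of_mul_eq_mul_left hpos (le_antisymm h3 h4)⟩


/-- reflection of the count -/
theorem card_neg {f : ℕ} [NeZero f] {n : ℕ} (S : Finset (ZMod f)ˣ) (R : (ZMod f)ˣ × Fin n → Prop) [DecidablePred R] :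
    (Finset.univ.filter fun v : (ZMod f)ˣ × Fin n => v.1 ∈ S ∧ R (-v.1, v.2)).card =
      (Finset.univ.filter fun v : (ZMod f)ˣ × Fin n => -v.1 ∈ S ∧ R v).card := by
  classical
  refine Finset.card_bij (fun v _ => (-v.1, v.2)) ?_ ?_ ?_
  · intro v hv
    rw [Finset.mem_filter] at hv ⊢
    refine ⟨Finset.mem_univ _, ?_, hv.2.2⟩
    show - -v.1 ∈ S
    rw [neg_neg]
    exact hv.2.1
  · rintro ⟨g, i⟩ _ ⟨g', i'⟩ _ h
    rw [Prod.mk.injEq] at h ⊢
    exact ⟨neg_injective h.1, h.2⟩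
  · rintro ⟨g, i⟩ hv
    rw [Finset.mem_filter] at hv
    refine ⟨(-g, i), ?_, ?_⟩
    · rw [Finset.mem_filter]
      refine ⟨Finset.mem_univ _, hv.2.1, ?_⟩
      show R (- -g, i)
      rw [neg_neg]
      exact hv.2.2
    · show (- -g, i) = (g, i)
      rw [neg_neg]

open Classical in
/-- **The relative master theorem**, `F` arbitrary, first case. -/
theorem master_first (f : ℕ) (hf : 2 ≤ f) (d : ℕ) : ∃ B : ℕ → Prop, Null B ∧ ∀ p : ℕ, p.Prime → ¬ B p →
    ∀ (F : Type u) (K : Type v) [Field F] [NumberField F] [Field K] [NumberField K] [Algebra F K],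
    Nonempty (F →+* CyclotomicField f ℚ) → ∀ j : F →+* F, (∀ φ : F →+* ℂ, ∀ x, φ (j x) = (starRingEnd ℂ) (φ x)) →
    Module.finrank F K ≤ d → ∀ a b c : 𝓞 K, FSol K p a b c →
    (∀ P : Ideal (𝓞 K), P.IsPrime → (p : 𝓞 K) ∈ P → a ∉ P ∧ b ∉ P ∧ c ∉ P) →
    ∀ (Ω : Type) [Field Ω] [IsAlgClosed Ω] [CharP Ω p] (w : 𝓞 F →+* Ω) (x : Ω), x ≠ 0 → x ≠ 1 →
      rootMultiplicity x ((nfR F K a b).map (w.comp (RingOfIntegers.mapRingHom j))) =
        rootMultiplicity x⁻¹ ((nfR F K a b).map w) ∧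
      rootMultiplicity x ((nfR F K a b).map (w.comp (RingOfIntegers.mapRingHom j))) =
        rootMultiplicity (1 - x) ((nfR F K a b).map w) := by
  have hfne : NeZero f := ⟨by omega⟩
  have hfq : NeZero ((f : ℕ) : ℚ) := ⟨Nat.cast_ne_zero.2 (NeZero.ne f)⟩
  have hcyc : IsCyclotomicExtension {f} ℚ (CyclotomicField f ℚ) := CyclotomicField.isCyclotomicExtension f ℚ
  obtain ⟨B, hB0, hB1⟩ := H99AB.sym_rel.{0, v} f hf (d * f)
  refine ⟨B, hB0, ?_⟩
  intro p hp hB F K _ _ _ _ _ ⟨ι⟩ j hj hdim a b c hF hC Ω _ _ _ w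
  obtain ⟨hbig, hsym⟩ := hB1 p hp hB
  have hfact : Fact p.Prime := ⟨hp⟩
  have hne : NeZero (f * p) := ⟨mul_ne_zero (NeZero.ne f) hp.ne_zero⟩
  let _ : Algebra F (CyclotomicField f ℚ) := ι.toAlgebra
  obtain ⟨K', _, _, _, _, _, _, _, hn, henv⟩ := exists_env f F K (CyclotomicField f ℚ)
  obtain ⟨w₀, ψ, hw₀, hψ⟩ := henv Ω w
  have hnd : Module.finrank (CyclotomicField f ℚ) K' ≤ d * f := hn.trans (Nat.mul_le_mul_right _ hdim)
  let m : 𝓞 K →+* 𝓞 K' := algebraMap (𝓞 K) (𝓞 K')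
  have hmι : ∀ z, m z = RingOfIntegers.mapRingHom (algebraMap K K') z := fun z => by
    apply RingOfIntegers.coe_injective
    rfl
  have hF' : FSol K' p (m a) (m b) (m c) := by
    rw [hmι, hmι, hmι]
    exact H3AB.FSol_map (algebraMap K K') hF
  have hC' : ∀ P : Ideal (𝓞 K'), P.IsPrime → (p : 𝓞 K') ∈ P → m a ∉ P ∧ m b ∉ P ∧ m c ∉ P := by
    intro P hP hpP
    refine hC (P.comap m) (Ideal.comap_isPrime m P) ?_
    rw [Ideal.mem_comap, map_natCast]
    exact hpP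
  have hval : ∀ g i, ψ g i (m a) ≠ 0 ∧ ψ g i (m b) ≠ 0 ∧ ψ g i (m c) ≠ 0 := fun g i =>
    ⟨H99AB.ne_zero_of_unit (fun P hP hpP => (hC' P hP hpP).1) (ψ g i),
      H99AB.ne_zero_of_unit (fun P hP hpP => (hC' P hP hpP).2.1) (ψ g i),
      H99AB.ne_zero_of_unit (fun P hP hpP => (hC' P hP hpP).2.2) (ψ g i)⟩
  have hs : ∀ g i, ψ g i (m a) + ψ g i (m b) + ψ g i (m c) = 0 := fun g i => fsol_hom hF' (ψ g i)
  have hcount := mult_count f F (CyclotomicField f ℚ) K K' w w₀ hw₀ ψ hψ a b (fun g i => Or.inl (hval g i).1)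
  have hw₁ : (w₀.comp (actL f (CyclotomicField f ℚ) (-1))).comp (algebraMap (𝓞 F) (𝓞 (CyclotomicField f ℚ))) =
      w.comp (RingOfIntegers.mapRingHom j) := by
    ext x
    show w₀ (actL f (CyclotomicField f ℚ) (-1) (algebraMap (𝓞 F) (𝓞 (CyclotomicField f ℚ)) x)) =
      w (RingOfIntegers.mapRingHom j x)
    rw [← hw₀]
    show _ = w₀ (algebraMap (𝓞 F) (𝓞 (CyclotomicField f ℚ)) (RingOfIntegers.mapRingHom j x))
    congr 1
    apply RingOfIntegers.coe_injective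
    exact cj_ext f F (CyclotomicField f ℚ) j hj (x : F)
  have hψ₁ : ∀ g, ∀ x y : 𝓞 K', (nfR (CyclotomicField f ℚ) K' x y).map
      ((w₀.comp (actL f (CyclotomicField f ℚ) (-1))).comp (actL f (CyclotomicField f ℚ) g)) =
      ∏ i, (C (ψ (-g) i x) + X * C (ψ (-g) i y)) := by
    intro g x y
    rw [RingHom.comp_assoc, ← actL_mul, neg_mul, one_mul]
    exact hψ (-g) x y
  have hcount₁ := mult_count f F (CyclotomicField f ℚ) K K' _ _ hw₁ (fun g => ψ (-g)) hψ₁ a b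
    (fun g i => Or.inl (hval (-g) i).1)
  have hcount₂ : ∀ x : Ω, Module.finrank K K' * rootMultiplicity x ((nfR F K a b).map
      (w.comp (RingOfIntegers.mapRingHom j))) =
      (Finset.univ.filter fun v : (ZMod f)ˣ × Fin (Module.finrank (CyclotomicField f ℚ) K') =>
        -v.1 ∈ HF f F (CyclotomicField f ℚ) ∧ ψ v.1 v.2 (m a) + x * ψ v.1 v.2 (m b) = 0).card := by
    intro x
    rw [hcount₁]
    exact card_neg (HF f F (CyclotomicField f ℚ)) (fun v => ψ v.1 v.2 (m a) + x * ψ v.1 v.2 (m b) = 0)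
  have hpos : 0 < Module.finrank K K' := by
    have hfin : FiniteDimensional K K' := Module.Finite.of_restrictScalars_finite ℚ K K'
    exact Module.finrank_pos
  obtain ⟨⟨σ₁, hσ₁⟩, -, ⟨σ₃, hσ₃⟩⟩ := hsym hfne (CyclotomicField f ℚ) K' hnd (m a) (m b) (m c) hF'
    (fun P hP hpP => (hC' P hP hpP).1) (fun P hP hpP => (hC' P hP hpP).2.1) (fun P hP hpP => (hC' P hP hpP).2.2)
    Ω w₀ ψ hψ
  -- the two moves
  have hm1 : ∀ (x : Ω) (v : (ZMod f)ˣ × Fin (Module.finrank (CyclotomicField f ℚ) K')), x ≠ 0 →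
      ψ v.1 v.2 (m a) + x * ψ v.1 v.2 (m b) = 0 →
      ψ (σ₁ v).1 (σ₁ v).2 (m a) + x⁻¹ * ψ (σ₁ v).1 (σ₁ v).2 (m b) = 0 := fun x v hx h =>
    move_inv (hval _ _).1 (hval _ _).1 hx h (hσ₁ v).2
  have hm2 : ∀ (x : Ω) (v : (ZMod f)ˣ × Fin (Module.finrank (CyclotomicField f ℚ) K')),
      ψ v.1 v.2 (m a) + x * ψ v.1 v.2 (m b) = 0 →
      ψ (σ₃ v).1 (σ₃ v).2 (m a) + (1 - x) * ψ (σ₃ v).1 (σ₃ v).2 (m b) = 0 := fun x v h => by
    refine move_sub (hs v.1 v.2) (hs _ _) (hval _ _).1 (hval _ _).1 h ?_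
    have h1 := (hσ₃ v).2
    have c1 := (hval v.1 v.2).2.2
    have c2 := (hval (σ₃ v).1 (σ₃ v).2).2.2
    have a1 := (hval v.1 v.2).1
    have a2 := (hval (σ₃ v).1 (σ₃ v).2).1
    field_simp at h1 ⊢
    linear_combination -h1
  have hle : ∀ (σ : Equiv.Perm ((ZMod f)ˣ × Fin (Module.finrank (CyclotomicField f ℚ) K'))) (x y : Ω),
      (∀ v, (σ v).1 = -v.1) → (∀ v, ψ v.1 v.2 (m a) + x * ψ v.1 v.2 (m b) = 0 →
        ψ (σ v).1 (σ v).2 (m a) + y * ψ (σ v).1 (σ v).2 (m b) = 0) →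
      (∀ v, ψ v.1 v.2 (m a) + y * ψ v.1 v.2 (m b) = 0 →
        ψ (σ v).1 (σ v).2 (m a) + x * ψ (σ v).1 (σ v).2 (m b) = 0) →
      rootMultiplicity x ((nfR F K a b).map (w.comp (RingOfIntegers.mapRingHom j))) =
        rootMultiplicity y ((nfR F K a b).map w) := by
    intro σ x y h1 h2 h3
    apply Nat.eq_of_mul_eq_mul_left hpos
    rw [hcount₂, hcount]
    refine le_antisymm ?_ ?_
    · refine Finset.card_le_card_of_injOn σ ?_ (σ.injective.injOn)
      intro v hv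
      rw [Finset.mem_coe, Finset.mem_filter] at hv ⊢
      refine ⟨Finset.mem_univ _, ?_, h2 v hv.2.2⟩
      rw [h1]
      exact hv.2.1
    · refine Finset.card_le_card_of_injOn σ ?_ (σ.injective.injOn)
      intro v hv
      rw [Finset.mem_coe, Finset.mem_filter] at hv ⊢
      refine ⟨Finset.mem_univ _, ?_, h3 v hv.2.2⟩
      rw [h1, neg_neg]
      exact hv.2.1
  intro x hx0 hx1
  have hi0 : x⁻¹ ≠ 0 := inv_ne_zero hx0
  refine ⟨hle σ₁ x x⁻¹ (fun v => (hσ₁ v).1) (fun v h => hm1 x v hx0 h) (fun v h => ?_),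
    hle σ₃ x (1 - x) (fun v => (hσ₃ v).1) (fun v h => hm2 x v h) (fun v h => ?_)⟩
  · have h1 := hm1 x⁻¹ v hi0 h
    rwa [inv_inv] at h1
  · have h1 := hm2 (1 - x) v h
    rwa [sub_sub_cancel] at h1

end H72AB
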