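import Pool.Agent.H72.AB.Desc
import Pool.Agent.H9.AB.RelA

/-!
# Project AB, module Count: root multiplicities of the relative norm form over `F ⊆ L = ℚ(ζ_f)`
-/

namespace H72AB

open Polynomial NumberField H9AB

universe u v w

theorem mult_pow {Ω : Type*} [Field Ω] (P : Polynomial Ω) (hP : P ≠ 0) (x : Ω) (n : ℕ) :
    rootMultiplicity x (P ^ n) = n * rootMultiplicity x P := by
  induction n with
  | zero => simp
  | succ n ih =>
    rw [pow_succ, rootMultiplicity_mul (mul_ne_zero (pow_ne_zero n hP) hP), ih]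
    ring

/-- the elements of `(ℤ/f)ˣ` whose automorphism fixes `F` -/
noncomputable def HF (f : ℕ) [NeZero f] (F : Type*) [Field F] (L : Type*) [Field L] [NumberField L]
    [IsCyclotomicExtension {f} ℚ L] [Algebra F L] : Finset (ZMod f)ˣ := by
  classical
  exact Finset.univ.filter fun g => ∀ x : F,
    (IsCyclotomicExtension.Rat.galEquivZMod f L).symm g (algebraMap F L x) = algebraMap F L x

theorem mem_HF (f : ℕ) [NeZero f] (F : Type*) [Field F] (L : Type*) [Field L] [NumberField L]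
    [IsCyclotomicExtension {f} ℚ L] [Algebra F L] (g : (ZMod f)ˣ) :
    g ∈ HF f F L ↔ ∀ x : F,
      (IsCyclotomicExtension.Rat.galEquivZMod f L).symm g (algebraMap F L x) = algebraMap F L x := by
  classical
  unfold HF
  rw [Finset.mem_filter]
  exact ⟨fun h => h.2, fun h => ⟨Finset.mem_univ _, h⟩⟩

section

variable (f : ℕ) [NeZero f] (F : Type*) [Field F] [NumberField F] (L : Type*) [Field L] [NumberField L]
    [IsCyclotomicExtension {f} ℚ L] [Algebra F L]

theorem prod_HF {M : Type*} [CommMonoid M] (Q : (𝓞 L →+* 𝓞 L) → M) :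
    ∏ σ : L ≃ₐ[F] L, Q (RingOfIntegers.mapRingHom (σ : L →+* L)) = ∏ g ∈ HF f F L, Q (actL f L g) := by
  classical
  have hst : IsScalarTower ℚ F L := IsScalarTower.of_algebraMap_eq' (Subsingleton.elim _ _)
  let e := IsCyclotomicExtension.Rat.galEquivZMod f L
  refine Finset.prod_bij (fun σ _ => e (σ.restrictScalars ℚ)) ?_ ?_ ?_ ?_
  · intro σ _
    rw [mem_HF]
    intro x
    show e.symm (e (σ.restrictScalars ℚ)) (algebraMap F L x) = _
    rw [MulEquiv.symm_apply_apply]
    exact σ.commutes x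
  · intro σ _ τ _ h
    have h1 := e.injective h
    ext x
    exact DFunLike.congr_fun h1 x
  · intro g hg
    rw [mem_HF] at hg
    refine ⟨AlgEquiv.ofRingEquiv (f := (e.symm g : L ≃ₐ[ℚ] L).toRingEquiv) (fun x => hg x), Finset.mem_univ _, ?_⟩
    have h1 : (AlgEquiv.ofRingEquiv (f := (e.symm g : L ≃ₐ[ℚ] L).toRingEquiv) (fun x => hg x) : L ≃ₐ[F] L).restrictScalars ℚ
        = e.symm g := by
      ext x
      rfl
    rw [h1]
    exact e.apply_symm_apply g
  · intro σ _
    congr 1
    ext x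
    show σ (x : L) = e.symm (e (σ.restrictScalars ℚ)) (x : L)
    rw [MulEquiv.symm_apply_apply]
    rfl

end

/-- **the counting lemma** -/
theorem mult_count (f : ℕ) [NeZero f] (F : Type*) [Field F] [NumberField F] (L : Type*) [Field L] [NumberField L]
    [IsCyclotomicExtension {f} ℚ L] [Algebra F L] (K K' : Type*) [Field K] [NumberField K] [Field K'] [NumberField K']
    [Algebra F K] [Algebra K K'] [Algebra F K'] [IsScalarTower F K K'] [Algebra L K'] [IsScalarTower F L K']
    {Ω : Type*} [Field Ω] [DecidableEq Ω] (w : 𝓞 F →+* Ω) (w₀ : 𝓞 L →+* Ω)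
    (hw : w₀.comp (algebraMap (𝓞 F) (𝓞 L)) = w) {n : ℕ}
    (ψ : (ZMod f)ˣ → Fin n → (𝓞 K' →+* Ω))
    (hψ : ∀ g, ∀ x y : 𝓞 K', (nfR L K' x y).map (w₀.comp (actL f L g)) = ∏ i, (C (ψ g i x) + X * C (ψ g i y)))
    (a b : 𝓞 K) (hab : ∀ g i, ψ g i (algebraMap (𝓞 K) (𝓞 K') a) ≠ 0 ∨ ψ g i (algebraMap (𝓞 K) (𝓞 K') b) ≠ 0)
    (x : Ω) :
    Module.finrank K K' * rootMultiplicity x ((nfR F K a b).map w) =
      (Finset.univ.filter fun v : (ZMod f)ˣ × Fin n => v.1 ∈ HF f F L ∧
        ψ v.1 v.2 (algebraMap (𝓞 K) (𝓞 K') a) + x * ψ v.1 v.2 (algebraMap (𝓞 K) (𝓞 K') b) = 0).card := by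
  classical
  have hst : IsScalarTower ℚ F L := IsScalarTower.of_algebraMap_eq' (Subsingleton.elim _ _)
  have hG : IsGalois ℚ L := IsCyclotomicExtension.isGalois {f} ℚ L
  have hGF : IsGalois F L := IsGalois.tower_top_of_isGalois ℚ F L
  set a' := algebraMap (𝓞 K) (𝓞 K') a with ha'
  set b' := algebraMap (𝓞 K) (𝓞 K') b with hb'
  have h1 : ((nfR F K a b).map w) ^ Module.finrank K K' =
      ∏ v ∈ HF f F L ×ˢ (Finset.univ : Finset (Fin n)), (C (ψ v.1 v.2 a') + X * C (ψ v.1 v.2 b')) := by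
    rw [← Polynomial.map_pow, ← nfR_pow F K K' a b, ← hw, ← map_map, nfR_prod F L K', Polynomial.map_prod,
      prod_HF f F L (fun s => ((nfR L K' a' b').map s).map w₀), Finset.prod_product]
    refine Finset.prod_congr rfl fun g _ => ?_
    rw [map_map, hψ g a' b']
  have h2 : ∀ v ∈ HF f F L ×ˢ (Finset.univ : Finset (Fin n)), ψ v.1 v.2 a' ≠ 0 ∨ ψ v.1 v.2 b' ≠ 0 :=
    fun v _ => hab v.1 v.2
  have h3 := mult_prod (HF f F L ×ˢ (Finset.univ : Finset (Fin n))) (fun v => ψ v.1 v.2 a') (fun v => ψ v.1 v.2 b') h2 x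
  have hfin : FiniteDimensional K K' := Module.Finite.of_restrictScalars_finite ℚ K K'
  have hpos : 0 < Module.finrank K K' := Module.finrank_pos
  have hne : (nfR F K a b).map w ≠ 0 := by
    intro h0
    rw [h0, zero_pow hpos.ne'] at h1
    have h4 := h1.symm
    rw [Finset.prod_eq_zero_iff] at h4
    obtain ⟨v, hv, h5⟩ := h4
    have e0 := congrArg (eval 0) h5
    have e1 := congrArg (eval 1) h5
    rw [eval_add, eval_C, eval_mul, eval_X, eval_C, zero_mul, add_zero, eval_zero] at e0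
    rw [eval_add, eval_C, eval_mul, eval_X, eval_C, one_mul, eval_zero, e0, zero_add] at e1
    rcases h2 v hv with h6 | h6
    · exact h6 e0
    · exact h6 e1
  rw [← mult_pow _ hne, h1, h3]
  congr 1
  ext v
  simp only [Finset.mem_filter, Finset.mem_product, Finset.mem_univ, and_true, true_and]

/-- counting by a permutation of a subset -/
theorem card_le_of_perm {A : Type*} [Fintype A] (P Q : A → Prop) [DecidablePred P] [DecidablePred Q] (S : Finset A)
    (hP : ∀ v, P v → v ∈ S) (σ : Equiv.Perm S) (hσ : ∀ v : S, P v → Q (σ v)) :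
    (Finset.univ.filter P).card ≤ (Finset.univ.filter Q).card := by
  classical
  refine Finset.card_le_card_of_injOn (fun v => if h : v ∈ S then (σ ⟨v, h⟩ : A) else v) ?_ ?_
  · intro v hv
    rw [Finset.mem_coe, Finset.mem_filter] at hv
    have h1 := hP v hv.2
    simp only [Finset.coe_filter, Finset.mem_univ, true_and, Set.mem_ofPred_eq, h1, dif_pos]
    exact hσ ⟨v, h1⟩ hv.2
  · intro v hv u hu huv
    rw [Finset.mem_coe, Finset.mem_filter] at hv hu
    have h1 := hP v hv.2
    have h2 := hP u hu.2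
    simp only [h1, h2, dif_pos] at huv
    have h3 := σ.injective (Subtype.ext huv)
    exact congrArg Subtype.val h3

end H72AB
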