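import Pool.Agent.H9.AB.RelNorm

/-!
# Project AB, module Desc: the relative norm form in towers

* `nfR_pow`: `N_{K'/F}(x + yX) = N_{K/F}(x + yX)^[K':K]` for `x, y ∈ 𝓞 K`.
* `nfR_prod`: `N_{K'/F}(x + yX) = ∏_{σ ∈ Gal(L/F)} σ(N_{K'/L}(x + yX))` for `x, y ∈ 𝓞 K'`.
* `exists_comp`: the compositum.
-/

namespace H72AB

open Polynomial NumberField H9AB

universe u v w

section tower

variable (F K K' : Type*) [Field F] [NumberField F] [Field K] [NumberField K] [Field K'] [NumberField K']
  [Algebra F K] [Algebra K K'] [Algebra F K'] [IsScalarTower F K K']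

theorem nfR_pow (x y : 𝓞 K) :
    nfR F K' (algebraMap (𝓞 K) (𝓞 K') x) (algebraMap (𝓞 K) (𝓞 K') y) =
      (nfR F K x y) ^ Module.finrank K K' := by
  apply map_injective (algebraMap (𝓞 F) F) RingOfIntegers.coe_injective
  rw [Polynomial.map_pow, nfR_map, nfR_map]
  apply eq_of_infinite_eval_eq
  refine Set.Infinite.mono ?_ (Set.infinite_univ (α := F))
  intro t _
  show eval t (nfL F K' _ _) = eval t ((nfL F K _ _) ^ _)
  rw [eval_pow, nfL_eval, nfL_eval]
  have h1 : ((algebraMap (𝓞 K) (𝓞 K') x : 𝓞 K') : K') + t • ((algebraMap (𝓞 K) (𝓞 K') y : 𝓞 K') : K') =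
      algebraMap K K' ((x : K) + t • (y : K)) := by
    rw [map_add, Algebra.smul_def, Algebra.smul_def, map_mul, IsScalarTower.algebraMap_apply F K K' t]
    rfl
  rw [h1, ← Algebra.norm_norm (R := F) (S := K), Algebra.norm_algebraMap, map_pow]

end tower

section galois

variable (F L K' : Type*) [Field F] [NumberField F] [Field L] [NumberField L] [Field K'] [NumberField K']
  [Algebra F L] [Algebra L K'] [Algebra F K'] [IsScalarTower F L K'] [IsGalois F L]

theorem nfR_prod (x y : 𝓞 K') :
    (nfR F K' x y).map (algebraMap (𝓞 F) (𝓞 L)) =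
      ∏ σ : L ≃ₐ[F] L, (nfR L K' x y).map (RingOfIntegers.mapRingHom (σ : L →+* L)) := by
  apply map_injective (algebraMap (𝓞 L) L) RingOfIntegers.coe_injective
  rw [Polynomial.map_prod, map_map]
  have h2 : (algebraMap (𝓞 L) L).comp (algebraMap (𝓞 F) (𝓞 L)) =
      (algebraMap F L).comp (algebraMap (𝓞 F) F) := by
    ext x
    rfl
  rw [h2, ← map_map, nfR_map]
  have h3 : ∀ σ : L ≃ₐ[F] L, ((nfR L K' x y).map (RingOfIntegers.mapRingHom (σ : L →+* L))).map
      (algebraMap (𝓞 L) L) = (nfL L K' (x : K') (y : K')).map (σ : L →+* L) := by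
    intro σ
    rw [← nfR_map, map_map, map_map]
    rfl
  simp only [h3]
  apply eq_of_infinite_eval_eq
  refine Set.Infinite.mono ?_ (Set.infinite_range_of_injective ((algebraMap F L).injective))
  rintro _ ⟨t, rfl⟩
  show eval (algebraMap F L t) _ = eval (algebraMap F L t) _
  rw [eval_map_apply, nfL_eval, eval_prod, ← Algebra.norm_norm (R := F) (S := L),
    Algebra.norm_eq_prod_automorphisms]
  refine Finset.prod_congr rfl fun σ _ => ?_
  have h4 : algebraMap F L t = (σ : L →+* L) (algebraMap F L t) := (σ.commutes t).symm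
  conv_rhs => rw [h4, eval_map_apply, nfL_eval]
  have h5 : t • (y : K') = (algebraMap F L t) • (y : K') := by
    rw [algebraMap_smul]
  rw [h5]
  rfl

end galois

/-- the compositum of `K` and `L` over `F` -/
theorem exists_comp (F : Type u) (K : Type v) (L : Type w) [Field F] [NumberField F] [Field K] [NumberField K] [Field L] [NumberField L]
    [Algebra F K] [Algebra F L] :
    ∃ (K' : Type v) (_ : Field K') (_ : NumberField K') (_ : Algebra F K') (_ : Algebra K K') (_ : Algebra L K'),
      IsScalarTower F K K' ∧ IsScalarTower F L K' ∧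
      Module.finrank F K' ≤ Module.finrank F K * Module.finrank F L := by
  let E := AlgebraicClosure K
  let φK : K →ₐ[F] E := IsScalarTower.toAlgHom F K E
  have hFL : FiniteDimensional F L := Module.Finite.of_restrictScalars_finite ℚ F L
  have hFK : FiniteDimensional F K := Module.Finite.of_restrictScalars_finite ℚ F K
  let φL : L →ₐ[F] E := IsAlgClosed.lift
  let K' : IntermediateField F E := φK.fieldRange ⊔ φL.fieldRange
  have e1 : Module.finrank F φK.fieldRange = Module.finrank F K :=
    (AlgEquiv.ofInjectiveField φK).symm.toLinearEquiv.finrank_eq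
  have e2 : Module.finrank F φL.fieldRange = Module.finrank F L :=
    (AlgEquiv.ofInjectiveField φL).symm.toLinearEquiv.finrank_eq
  have f1 : FiniteDimensional F φK.fieldRange :=
    LinearEquiv.finiteDimensional (AlgEquiv.ofInjectiveField φK).toLinearEquiv
  have f2 : FiniteDimensional F φL.fieldRange :=
    LinearEquiv.finiteDimensional (AlgEquiv.ofInjectiveField φL).toLinearEquiv
  have hfin : FiniteDimensional F K' := IntermediateField.finiteDimensional_sup _ _
  have : CharZero K' := charZero_of_injective_algebraMap (algebraMap F K').injective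
  have hNf : NumberField K' := by
    refine { to_charZero := inferInstance, to_finiteDimensional := ?_ }
    have : IsScalarTower ℚ F K' := IsScalarTower.of_algebraMap_eq' (Subsingleton.elim _ _)
    exact Module.Finite.trans F K'
  let iK : K →ₐ[F] K' := φK.codRestrict K'.toSubalgebra fun x =>
    (le_sup_left : φK.fieldRange ≤ K') ⟨x, rfl⟩
  let iL : L →ₐ[F] K' := φL.codRestrict K'.toSubalgebra fun x =>
    (le_sup_right : φL.fieldRange ≤ K') ⟨x, rfl⟩
  refine ⟨K', inferInstance, hNf, inferInstance, iK.toRingHom.toAlgebra, iL.toRingHom.toAlgebra, ?_, ?_, ?_⟩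
  · let _ : Algebra K K' := iK.toRingHom.toAlgebra
    exact IsScalarTower.of_algebraMap_eq fun x => (iK.commutes x).symm
  · let _ : Algebra L K' := iL.toRingHom.toAlgebra
    exact IsScalarTower.of_algebraMap_eq fun x => (iL.commutes x).symm
  · refine (IntermediateField.finrank_sup_le _ _).trans ?_
    rw [e1, e2]

/-- the root multiplicities of a product of linear polynomials -/
theorem mult_prod {Ω : Type*} [Field Ω] [DecidableEq Ω] {ι : Type*} (s : Finset ι) (a b : ι → Ω)
    (h : ∀ i ∈ s, a i ≠ 0 ∨ b i ≠ 0) (x : Ω) :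
    rootMultiplicity x (∏ i ∈ s, (C (a i) + X * C (b i))) = (s.filter (fun i => a i + x * b i = 0)).card := by
  classical
  induction s using Finset.induction_on with
  | empty => simp
  | insert j s hj ih =>
    have h1 : ∀ i ∈ insert j s, (C (a i) + X * C (b i) : Polynomial Ω) ≠ 0 := by
      intro i hi h0
      have e0 := congrArg (fun P => coeff P 0) h0
      have e1 := congrArg (fun P => coeff P 1) h0
      simp only [coeff_add, coeff_C_zero, coeff_C_succ, mul_coeff_zero, coeff_X_zero, zero_mul, add_zero, coeff_zero,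
        coeff_X_mul, zero_add] at e0 e1
      rcases h i hi with h2 | h2
      · exact h2 e0
      · apply h2
        have e1' := congrArg (fun P => coeff P (0 + 1)) h0
        simp only [coeff_add, coeff_C_succ, coeff_X_mul, coeff_C_zero, zero_add, coeff_zero] at e1'
        exact e1'
    have h2 : (∏ i ∈ s, (C (a i) + X * C (b i)) : Polynomial Ω) ≠ 0 :=
      Finset.prod_ne_zero_iff.2 fun i hi => h1 i (Finset.mem_insert_of_mem hi)
    rw [Finset.prod_insert hj, rootMultiplicity_mul (mul_ne_zero (h1 j (Finset.mem_insert_self _ _)) h2),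
      ih fun i hi => h i (Finset.mem_insert_of_mem hi), Finset.filter_insert]
    have h3 : eval x (C (a j) + X * C (b j)) = a j + x * b j := by
      rw [eval_add, eval_C, eval_mul, eval_X, eval_C]
    by_cases hx : a j + x * b j = 0
    · rw [if_pos hx, Finset.card_insert_of_notMem (fun h4 => hj (Finset.mem_filter.1 h4).1), add_comm]
      congr 1
      have hb : b j ≠ 0 := by
        intro hb
        rw [hb, mul_zero, add_zero] at hx
        rcases h j (Finset.mem_insert_self _ _) with h5 | h5
        · exact h5 hx
        · exact h5 hb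
      have e : (C (a j) + X * C (b j) : Polynomial Ω) = C (b j) * (X - C x) := by
        have : a j = -(x * b j) := eq_neg_of_add_eq_zero_left hx
        rw [this, C_neg, C_mul]
        ring
      rw [e, rootMultiplicity_mul (by rw [← e]; exact h1 j (Finset.mem_insert_self _ _)), rootMultiplicity_C, zero_add,
        rootMultiplicity_X_sub_C_self]
    · rw [if_neg hx, rootMultiplicity_eq_zero (by rw [IsRoot, h3]; exact hx), zero_add]

end H72AB
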