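import Pool.Agent.H99.AB.Fourier
import Pool.Agent.H85.AB.End
import Pool.Agent.H59.FD.InstW
import Pool.Agent.H22.GW.Defs
import Pool.Agent.H9.AB.RelNorm

/-!
# Project AB: the interface

`f` conductor, `p` prime, `c` a prime not dividing `2 f`.
`K` number field containing a primitive `f`-th root of unity `ζK`, `E` a Galois number field containing the
conjugates of `K`, `ζE : E` a primitive `f`-th root of unity, `Φ : 𝓞 E → Ω` (characteristic `p`).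
The places are the embeddings `τ : K → E`, `π τ ∈ (ℤ/f)ˣ` is given by `τ ζK = ζE ^ (π τ)`.

All statements are `Prop`s here; the owners prove `theorem ... : H72AB.XXX`.
-/

namespace H72AB

open Finset NumberField H69FD H99AB Pool.Agent.H71.FD

/-! ## Places -/

section places

variable {K E Ω : Type} [Field K] [NumberField K] [Field E] [NumberField E] [Field Ω]

/-- the value of `x` at the place `(τ, Φ)` -/
noncomputable def pv (Φ : 𝓞 E →+* Ω) (τ : K →ₐ[ℚ] E) (x : 𝓞 K) : Ω :=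
  Φ (RingOfIntegers.mapRingHom (τ : K →+* E) x)

/-- `- b / a` at the place `(τ, Φ)` -/
noncomputable def tv (Φ : 𝓞 E →+* Ω) (a b : 𝓞 K) (τ : K →ₐ[ℚ] E) : Ω := -pv Φ τ b / pv Φ τ a

open Classical in
/-- the places which do not divide `a b d` -/
noncomputable def gd (Φ : 𝓞 E →+* Ω) (a b d : 𝓞 K) : Finset (K →ₐ[ℚ] E) :=
  univ.filter fun τ => pv Φ τ a ≠ 0 ∧ pv Φ τ b ≠ 0 ∧ pv Φ τ d ≠ 0

end places

/-- no prime above `p` divides `a b d` -/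
def Coprime3 {K : Type} [Field K] (p : ℕ) (a b d : 𝓞 K) : Prop :=
  ∀ Q : Ideal (𝓞 K), Q.IsPrime → (p : 𝓞 K) ∈ Q → a ∉ Q ∧ b ∉ Q ∧ d ∉ Q

/-- no prime above `p` divides two of `a, b, d` -/
def Coprime2 {K : Type} [Field K] (p : ℕ) (a b d : 𝓞 K) : Prop :=
  ∀ Q : Ideal (𝓞 K), Q.IsPrime → (p : 𝓞 K) ∈ Q → ¬ (a ∈ Q ∧ b ∈ Q) ∧ ¬ (a ∈ Q ∧ d ∈ Q) ∧ ¬ (b ∈ Q ∧ d ∈ Q)

/-! ## (D1) the gap theorem for the moments -/

/-- `Z m`: the moment `β_{m+1}` of the reduction of `ψ₀` at some place above `p` vanishes -/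
def ZokPsi (k : Type) [Field k] [NumberField k] (f c : ℕ) (ψ₀ : (ZMod f)ˣ →* (𝓞 k)ˣ) (p : ℕ) (Z : ℕ → Prop) : Prop :=
  ∃ (_ : NeZero (f * p)) (Ω : Type) (_ : Field Ω) (_ : CharP Ω p) (φ : 𝓞 k →+* Ω),
    ∀ m, Z m ↔ beta Ω f p c (m + 1) ((Units.map (φ : 𝓞 k →* Ω)).comp ψ₀) = 0

/-- **GapPsi**: from helper22's `gapW` and helper99's `badW_of_beta` (and `beta_parity` for the other parity). -/
def GapPsi : Prop :=
  ∀ (k : Type) [Field k] [NumberField k] (f c e : ℕ) (ψ₀ : (ZMod f)ˣ →* (𝓞 k)ˣ), 3 ≤ f → c.Prime → ¬ c ∣ 2 * f →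
    ((ψ₀ (-1) : (𝓞 k)ˣ) : 𝓞 k) = (-1) ^ e → Pool.Agent.FD.GapG (fun m => m % 2 = e % 2) (ZokPsi k f c ψ₀)

/-! ## (D2) density zero of the failure of the twisted symmetry -/

/-- a family with the relations of the parity `e` for the character `ψ`, without the symmetry -/
def BadTw (e f c n p : ℕ) : Prop :=
  ∃ (_ : NeZero (f * p)) (Ω : Type) (_ : Field Ω) (_ : IsAlgClosed Ω) (_ : CharP Ω p) (π : Fin n → (ZMod f)ˣ)
    (T : Fin n → Ω) (ψ : (ZMod f)ˣ →* Ωˣ), (∀ v, T v ≠ 0) ∧ (∀ v, T v ≠ 1) ∧ ((ψ (-1) : Ωˣ) : Ω) = (-1) ^ e ∧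
    (∀ m, m % 2 = e % 2 → 2 ≤ m → 2 * m + 1 ≤ p →
      beta Ω f p c (m + 1) ψ = 0 ∨ ∑ v, ((ψ (π v) : Ωˣ) : Ω) * LL m (T v) = 0) ∧
    ¬ H85AB.Twist π T (-1) ψ

/-- **NullTw**: finite union over `ψ₀ : (ℤ/f)ˣ → (𝓞 k)ˣ` (`k` the cyclotomic field of the exponent) and over `π` of
`H59FD.theoremMW` with `r = 1`, `R 0 = Φ_r`, `C v = X ^ (κ v)` and `GapPsi`. -/
def NullTw : Prop := ∀ e f c n : ℕ, 3 ≤ f → c.Prime → ¬ c ∣ 2 * f → Null (BadTw e f c n)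

/-! ## (D3) the relations over `K ∋ ζ_f` -/

/-- **RelFirst**: first case, all indices. -/
def RelFirst : Prop :=
  ∀ (f p c : ℕ) [NeZero f] [Fact p.Prime] [NeZero (f * p)], p ≠ 2 → ¬ p ∣ f → 1 ≤ c → c < f * p →
  ∀ (K E Ω : Type) [Field K] [NumberField K] [Field E] [NumberField E] [IsGalois ℚ E] [Field Ω] [IsAlgClosed Ω]
    [CharP Ω p] (ζK : K) (ζE : E), IsPrimitiveRoot ζK f → IsPrimitiveRoot ζE f → Nonempty (K →+* E) →
  ∀ (π : (K →ₐ[ℚ] E) → (ZMod f)ˣ), (∀ τ, τ ζK = ζE ^ (π τ).val.val) →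
  ∀ (Φ : 𝓞 E →+* Ω) (a b d : 𝓞 K), a ^ p + b ^ p + d ^ p = 0 → Coprime3 p a b d →
  ∀ (ψ : (ZMod f)ˣ →* Ωˣ) (j : ℕ), 2 ≤ j → j + 2 ≤ p →
    beta Ω f p c j ψ = 0 ∨ ∑ τ : K →ₐ[ℚ] E, ((ψ (π τ) : Ωˣ) : Ω) * LL (j - 1) (tv Φ a b τ) = 0

/-- **RelOdd**: all solutions (AB+), odd indices `j` only, the places which do not divide `a b d`. -/
def RelOdd : Prop :=
  ∀ (f p c : ℕ) [NeZero f] [Fact p.Prime] [NeZero (f * p)], p ≠ 2 → ¬ p ∣ f → 1 ≤ c → c < f * p →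
  ∀ (K E Ω : Type) [Field K] [NumberField K] [Field E] [NumberField E] [IsGalois ℚ E] [Field Ω] [IsAlgClosed Ω]
    [CharP Ω p] (ζK : K) (ζE : E), IsPrimitiveRoot ζK f → IsPrimitiveRoot ζE f → Nonempty (K →+* E) →
  ∀ (π : (K →ₐ[ℚ] E) → (ZMod f)ˣ), (∀ τ, τ ζK = ζE ^ (π τ).val.val) →
  ∀ (Φ : 𝓞 E →+* Ω) (a b d : 𝓞 K), a ^ p + b ^ p + d ^ p = 0 → a ≠ 0 → b ≠ 0 → d ≠ 0 → Coprime2 p a b d →
    2 * Module.finrank ℚ K + 10 ≤ p →
  ∀ (ψ : (ZMod f)ˣ →* Ωˣ) (j : ℕ), Odd j → 3 ≤ j → 2 * j ≤ p + 1 →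
    beta Ω f p c j ψ = 0 ∨ ∑ τ ∈ gd Φ a b d, ((ψ (π τ) : Ωˣ) : Ω) * LL (j - 1) (tv Φ a b τ) = 0

/-! ## (D4) the symmetry over `K ∋ ζ_f` -/

open Classical in
/-- `M_{-g} = 1 / M_g` (counting form) -/
def InvG {α Ω : Type} [Field Ω] {f : ℕ} (S : Finset α) (π : α → (ZMod f)ˣ) (T : α → Ω) : Prop :=
  ∀ (g : (ZMod f)ˣ) (x : Ω), (S.filter fun τ => π τ = g ∧ T τ = x).card =
    (S.filter fun τ => π τ = -g ∧ T τ * x = 1).card

open Classical in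
/-- `M_g ∪ M_{-g}` is stable under inversion (counting form) -/
def InvPM {α Ω : Type} [Field Ω] {f : ℕ} (S : Finset α) (π : α → (ZMod f)ˣ) (T : α → Ω) : Prop :=
  ∀ (g : (ZMod f)ˣ) (x : Ω), (S.filter fun τ => (π τ = g ∨ π τ = -g) ∧ T τ = x).card =
    (S.filter fun τ => (π τ = g ∨ π τ = -g) ∧ T τ * x = 1).card

/-- **SymFirst**: the three symmetries for a first case solution, `n = [K:ℚ]`. -/
def SymFirst (f n p : ℕ) : Prop :=
  ∀ (K E Ω : Type) [Field K] [NumberField K] [Field E] [NumberField E] [IsGalois ℚ E] [Field Ω] [IsAlgClosed Ω]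
    [CharP Ω p] (ζK : K) (ζE : E), IsPrimitiveRoot ζK f → IsPrimitiveRoot ζE f → Nonempty (K →+* E) →
    Module.finrank ℚ K = n →
  ∀ (π : (K →ₐ[ℚ] E) → (ZMod f)ˣ), (∀ τ, τ ζK = ζE ^ (π τ).val.val) →
  ∀ (Φ : 𝓞 E →+* Ω) (a b d : 𝓞 K), a ^ p + b ^ p + d ^ p = 0 → Coprime3 p a b d → InvG univ π (tv Φ a b)

/-- **SymOdd**: the symmetry for every solution, at the places which do not divide `a b d`. -/
def SymOdd (f n p : ℕ) : Prop :=
  ∀ (K E Ω : Type) [Field K] [NumberField K] [Field E] [NumberField E] [IsGalois ℚ E] [Field Ω] [IsAlgClosed Ω]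
    [CharP Ω p] (ζK : K) (ζE : E), IsPrimitiveRoot ζK f → IsPrimitiveRoot ζE f → Nonempty (K →+* E) →
    Module.finrank ℚ K = n →
  ∀ (π : (K →ₐ[ℚ] E) → (ZMod f)ˣ), (∀ τ, τ ζK = ζE ^ (π τ).val.val) →
  ∀ (Φ : 𝓞 E →+* Ω) (a b d : 𝓞 K), a ^ p + b ^ p + d ^ p = 0 → a ≠ 0 → b ≠ 0 → d ≠ 0 → Coprime2 p a b d →
    InvPM (gd Φ a b d) π (tv Φ a b)

/-- **NullFirst**: `NullTw → RelFirst → NullFirst` (choose a prime `c` not dividing `2 f`; `H85AB.fourier`). -/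
def NullFirst : Prop := ∀ f n : ℕ, 3 ≤ f → Null (fun p => ¬ SymFirst f n p)

/-- **NullOdd**: `NullTw → RelOdd → NullOdd`. -/
def NullOdd : Prop := ∀ f n : ℕ, 3 ≤ f → Null (fun p => ¬ SymOdd f n p)

/-! ## (D5) descent: `K ⊇ F`, `F` abelian of conductor dividing `f` -/

section descent

variable {F K E Ω : Type} [Field F] [NumberField F] [Field K] [NumberField K] [Field E] [NumberField E] [Algebra F K]
  [Algebra F E] [Field Ω]

open Classical in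
/-- `M_w` is stable under inversion, `w : F → E` (counting form) -/
def InvF (S : Finset (K →ₐ[ℚ] E)) (T : (K →ₐ[ℚ] E) → Ω) : Prop :=
  ∀ (w : F →ₐ[ℚ] E) (x : Ω),
    (S.filter fun τ => τ.comp (algebraMap F K).toRatAlgHom = w ∧ T τ = x).card =
    (S.filter fun τ => τ.comp (algebraMap F K).toRatAlgHom = w ∧ T τ * x = 1).card

end descent

/-- **SymReal**: the symmetry over a real abelian field `F ⊆ ℚ(ζ_f)`, for every solution, at the places which do not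
divide `a b d`; `n = [K:ℚ]`. -/
def SymReal (f n p : ℕ) : Prop :=
  ∀ (F K E Ω : Type) [Field F] [NumberField F] [Field K] [NumberField K] [Algebra F K] [Field E] [NumberField E]
    [IsGalois ℚ E] [Field Ω] [IsAlgClosed Ω] [CharP Ω p], Nonempty (K →+* E) → Nonempty (F →+* CyclotomicField f ℚ) →
    Nonempty (F →+* ℝ) → Module.finrank ℚ K = n →
  ∀ (Φ : 𝓞 E →+* Ω) (a b d : 𝓞 K), a ^ p + b ^ p + d ^ p = 0 → a ≠ 0 → b ≠ 0 → d ≠ 0 → Coprime2 p a b d →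
    InvF (F := F) (gd Φ a b d) (tv Φ a b)

/-- the same in the first case -/
def SymRealFirst (f n p : ℕ) : Prop :=
  ∀ (F K E Ω : Type) [Field F] [NumberField F] [Field K] [NumberField K] [Algebra F K] [Field E] [NumberField E]
    [IsGalois ℚ E] [Field Ω] [IsAlgClosed Ω] [CharP Ω p], Nonempty (K →+* E) → Nonempty (F →+* CyclotomicField f ℚ) →
    Nonempty (F →+* ℝ) → Module.finrank ℚ K = n →
  ∀ (Φ : 𝓞 E →+* Ω) (a b d : 𝓞 K), a ^ p + b ^ p + d ^ p = 0 → Coprime3 p a b d →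
    InvF (F := F) univ (tv Φ a b)

/-- **NullReal**: `NullOdd → NullReal` by `K' = K(ζ_f)` (`[K':ℚ] ≤ n f`). -/
def NullReal : Prop := ∀ f n : ℕ, 3 ≤ f → Null (fun p => ¬ SymReal f n p)

/-- **NullRealFirst**: `NullFirst → NullRealFirst` (the fallback if AB+ is not ready). -/
def NullRealFirst : Prop := ∀ f n : ℕ, 3 ≤ f → Null (fun p => ¬ SymRealFirst f n p)

end H72AB
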