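import Pool.Agent.H88.AB.Real

/-!
# Project AB, module Strong: from the symmetry up to sign (`H88AB.SymL`) to `T² - T + 1 = 0`

`T g = - w(σ_g b) / w(σ_g a)`. If every good `g` has a good partner `g' = ± g` with `T g' T g = 1`, for the three
types of the solution, then `-g` is good, `T (-g) T g = 1` and `(T g)² - T g + 1 = 0`.
-/

namespace H72AB

open NumberField H9FC H9AB H88AB

/-- the abstract lemma: `x` the value at the place, `s` the set of the values at `{g, -g}` (good ones) -/
theorem six_pair {Ω : Type*} [Field Ω] (h3 : (3 : Ω) ≠ 0) {G : Type*} [InvolutiveNeg G] (S : G → Prop) (T : G → Ω)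
    (h0 : ∀ g, S g → T g ≠ 0)
    (h1 : ∀ g, S g → ∃ g', S g' ∧ (g' = g ∨ g' = -g) ∧ T g' * T g = 1)
    (h2 : ∀ g, S g → ∃ g', S g' ∧ (g' = g ∨ g' = -g) ∧ (1 - T g') * (1 - T g) = 1)
    (g : G) (hg : S g) : S (-g) ∧ T (-g) * T g = 1 ∧ T g ^ 2 - T g + 1 = 0 := by
  -- the values `-1` and `2` are impossible
  have key : ∀ g, S g → T g ≠ -1 := by
    intro g hg hT
    obtain ⟨g', hg', h4, h5⟩ := h2 g hg
    rw [hT] at h5
    have h6 : 2 * T g' = 1 := by linear_combination -h5
    have h7 : g' = -g := by
      rcases h4 with rfl | h4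
      · exfalso
        apply h3
        rw [hT] at h6
        linear_combination -h6
      · exact h4
    obtain ⟨g'', hg'', h8, h9⟩ := h1 g' hg'
    have h10 : T g'' = 2 := by linear_combination T g'' * (-h6) + 2 * h9
    rcases h8 with h8 | h8
    · apply h3
      rw [h8] at h10
      linear_combination h6 - 2 * h10
    · rw [h7, neg_neg] at h8
      rw [h8, hT] at h10
      apply h3
      linear_combination -h10
  have key2 : ∀ g, S g → T g ≠ 2 := by
    intro g hg hT
    obtain ⟨g', hg', h4, h5⟩ := h1 g hg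
    rw [hT] at h5
    -- `T g' = 1/2`
    have h7 : g' = -g := by
      rcases h4 with rfl | h4
      · exfalso
        apply h3
        rw [hT] at h5
        linear_combination h5
      · exact h4
    obtain ⟨g'', hg'', h8, h9⟩ := h2 g' hg'
    have h10 : T g'' = -1 := by linear_combination (-1 + T g'') * h5 - 2 * h9
    exact key g'' hg'' h10
  obtain ⟨g', hg', h4, h5⟩ := h1 g hg
  rcases h4 with rfl | rfl
  · exfalso
    have h6 : (T g' - 1) * (T g' + 1) = 0 := by linear_combination h5
    rcases mul_eq_zero.1 h6 with h7 | h7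
    · -- `T = 1`: impossible by the second type
      obtain ⟨g'', -, -, h8⟩ := h2 g' hg'
      have h9 : T g' = 1 := by linear_combination h7
      rw [h9, sub_self, mul_zero] at h8
      exact zero_ne_one h8
    · exact key g' hg' (by linear_combination h7)
  · refine ⟨hg', h5, ?_⟩
    obtain ⟨g'', hg'', h8, h9⟩ := h2 g hg
    rcases h8 with rfl | rfl
    · exfalso
      have h10 : T g'' * (T g'' - 2) = 0 := by linear_combination h9
      rcases mul_eq_zero.1 h10 with h11 | h11
      · exact h0 g'' hg h11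
      · exact key2 g'' hg (by linear_combination h11)
    · exact H85AB.six_of_two h5 h9

section

variable (f : ℕ) [NeZero f] (L : Type*) [Field L] [NumberField L] [IsCyclotomicExtension {f} ℚ L]

/-- **Theorem S over `L = ℚ(ζ_f)`**: at the good places `-b/a` is a primitive sixth root of unity. -/
theorem strong_L (p : ℕ) [Fact p.Prime] (hp : 3 < p) (Ω : Type*) [Field Ω] [CharP Ω p]
    (hsym : SymL f L p Ω) (a b c : 𝓞 L) (hF : FSol L p a b c) (hC : CopAt L p a b c) (w : 𝓞 L →+* Ω)
    (g : (ZMod f)ˣ) (hg : g ∈ good f L w a b c) :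
    -g ∈ good f L w a b c ∧
      (-(w (actL f L (-g) b)) / w (actL f L (-g) a)) * (-(w (actL f L g b)) / w (actL f L g a)) = 1 ∧
      (-(w (actL f L g b)) / w (actL f L g a)) ^ 2 - (-(w (actL f L g b)) / w (actL f L g a)) + 1 = 0 := by
  have h3 : (3 : Ω) ≠ 0 := by
    intro h0
    have h4 : ((3 : ℕ) : Ω) = 0 := by exact_mod_cast h0
    have := Nat.le_of_dvd (by norm_num) ((CharP.cast_eq_zero_iff Ω p 3).mp h4)
    omega
  refine six_pair h3 (fun g => g ∈ good f L w a b c) (fun g => -(w (actL f L g b)) / w (actL f L g a)) ?_ ?_ ?_ g hg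
  · intro g hg
    obtain ⟨h1, h2, -⟩ := mem_good.1 hg
    exact div_ne_zero (neg_ne_zero.2 h2) h1
  · intro g hg
    obtain ⟨g', hg', h1, h2⟩ := hsym a b c hF hC w g hg
    exact ⟨g', hg', h1, h2⟩
  · intro g hg
    have e1 : ∀ g, g ∈ good f L w a b c → g ∈ good f L w a c b := fun g h =>
      mem_good.2 ⟨(mem_good.1 h).1, (mem_good.1 h).2.2, (mem_good.1 h).2.1⟩
    have e2 : ∀ g, g ∈ good f L w a c b → g ∈ good f L w a b c := fun g h =>
      mem_good.2 ⟨(mem_good.1 h).1, (mem_good.1 h).2.2, (mem_good.1 h).2.1⟩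
    obtain ⟨g', hg', h1, h2⟩ := hsym a c b hF.rot.rot.swap hC.rot.rot.swap w g (e1 g hg)
    refine ⟨g', e2 g' hg', h1, ?_⟩
    have key : ∀ g, g ∈ good f L w a b c → 1 - -(w (actL f L g b)) / w (actL f L g a) =
        -(w (actL f L g c)) / w (actL f L g a) := by
      intro g hg
      have hs : w (actL f L g a) + w (actL f L g b) + w (actL f L g c) = 0 :=
        fsol_hom hF (w.comp (actL f L g))
      have ha := (mem_good.1 hg).1
      field_simp
      linear_combination hs
    rw [key g' (e2 g' hg'), key g hg]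
    exact h2

end

end H72AB
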