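import Pool.Agent.H72.AB.StrongK
import Pool.Agent.H72.AB.Master

/-!
# Project AB, module StrongC: Theorem S, the conjugate place

At a good prime `v ∣ p` of an abelian field `K`, for almost all `p`: `a ā = b b̄` modulo `v`, relative to `a ā`.
-/

namespace H72AB

open NumberField IsDedekindDomain H9FC H9AB H88AB

/-- **Theorem S**, one prime `p`, conjugate place. -/
theorem strong_conj (f : ℕ) [NeZero f] (L : Type*) [Field L] [NumberField L] [IsCyclotomicExtension {f} ℚ L]
    {K : Type*} [Field K] [NumberField K] (ι : K →+* L) (p : ℕ) [Fact p.Prime] (hp : 3 < p)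
    (Ω : Type*) [Field Ω] [IsAlgClosed Ω] [CharP Ω p] (hsym : SymL f L p Ω)
    (j : K →+* K) (hj : ∀ (φ : K →+* ℂ) (x : K), φ (j x) = (starRingEnd ℂ) (φ x))
    (a b c : K) (ha : a ≠ 0) (hb : b ≠ 0) (hc : c ≠ 0) (h : a ^ p + b ^ p + c ^ p = 0)
    (v : HeightOneSpectrum (𝓞 K)) (hv : (p : 𝓞 K) ∈ v.asIdeal)
    (hg : v.valuation K a = v.valuation K b ∧ v.valuation K b = v.valuation K c) :
    v.valuation K (a * j a - b * j b) < v.valuation K (a * j a) := by
  obtain ⟨l, a', b', c', hl, ea, eb, ec, hF, hcp, φ, hφ, h1, h2, h3⟩ := H3AB.scale_good Ω ha hb hc h v hv hg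
  let _ : Algebra K L := ι.toAlgebra
  obtain ⟨w, hw⟩ := exists_lift_hom K L Ω φ
  have hmap : ∀ x : 𝓞 K, RingOfIntegers.mapRingHom ι x = algebraMap (𝓞 K) (𝓞 L) x := fun x => by
    apply RingOfIntegers.coe_injective
    rfl
  have hwx : ∀ x : 𝓞 K, w (RingOfIntegers.mapRingHom ι x) = φ x := fun x => by
    rw [hmap, ← hw]
    rfl
  have hwj : ∀ x : 𝓞 K, w (actL f L (-1) (RingOfIntegers.mapRingHom ι x)) = φ (RingOfIntegers.mapRingHom j x) := by
    intro x
    rw [← hwx]
    congr 1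
    apply RingOfIntegers.coe_injective
    exact cj_ext f K L j hj (x : K)
  obtain ⟨-, h4, h5, h6⟩ := strong_w f L p hp Ω hsym _ _ _ (fsol_map hF ι) (cop_map hcp ι) w
    (by rw [hwx]; exact h1) (by rw [hwx]; exact h2) (by rw [hwx]; exact h3)
  rw [hwj] at h4 h5
  rw [hwj, hwj, hwx, hwx] at h6
  have h7 : a' * RingOfIntegers.mapRingHom j a' - b' * RingOfIntegers.mapRingHom j b' ∈ v.asIdeal := by
    rw [← hφ, RingHom.mem_ker, map_sub, map_mul, map_mul]
    linear_combination -h6
  have h8 : v.valuation K ((a' * RingOfIntegers.mapRingHom j a' - b' * RingOfIntegers.mapRingHom j b' : 𝓞 K) : K) < 1 := by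
    rw [HeightOneSpectrum.valuation_lt_one_iff_mem]
    exact h7
  have h9 : v.valuation K ((a' * RingOfIntegers.mapRingHom j a' : 𝓞 K) : K) = 1 := by
    refine le_antisymm (v.valuation_le_one _) ?_
    by_contra hcon
    rw [not_le, HeightOneSpectrum.valuation_lt_one_iff_mem, ← hφ, RingHom.mem_ker, map_mul] at hcon
    exact (mul_ne_zero h1 h4) hcon
  have ej : ∀ x : 𝓞 K, ((RingOfIntegers.mapRingHom j x : 𝓞 K) : K) = j (x : K) := fun x => rfl
  have h10 : ((a' * RingOfIntegers.mapRingHom j a' : 𝓞 K) : K) = (l * j l) * (a * j a) := by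
    have e1 : ((a' * RingOfIntegers.mapRingHom j a' : 𝓞 K) : K) = (a' : K) * j (a' : K) := by
      simp only [map_mul, ej]
    rw [e1, ea, map_mul]
    ring
  have h11 : ((a' * RingOfIntegers.mapRingHom j a' - b' * RingOfIntegers.mapRingHom j b' : 𝓞 K) : K) =
      (l * j l) * (a * j a - b * j b) := by
    have e1 : ((a' * RingOfIntegers.mapRingHom j a' - b' * RingOfIntegers.mapRingHom j b' : 𝓞 K) : K) =
        (a' : K) * j (a' : K) - (b' : K) * j (b' : K) := by
      simp only [map_mul, map_sub, ej]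
    rw [e1, ea, eb, map_mul, map_mul]
    ring
  have hl0 : 0 < v.valuation K (l * j l) :=
    zero_lt_iff.2 ((map_ne_zero _).2 (mul_ne_zero hl ((map_ne_zero j).2 hl)))
  rw [h11, ← h9, h10, map_mul (v.valuation K) (l * j l), map_mul (v.valuation K) (l * j l)] at h8
  exact (mul_lt_mul_iff_right₀ hl0).1 h8

end H72AB
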