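import Pool.Agent.H72.AB.Strong
import Pool.Agent.H88.AB.RelId
import Pool.Agent.H3.AB.Scale
import Pool.Agent.H22.GW.Gap

/-!
# Project AB, module StrongK: Theorem S

For every `f` there is a set of primes `p` of density zero outside which, for every subfield `K` of `ℚ(ζ_f)`,
every solution and every prime `v ∣ p` of `K` with `v(a) = v(b) = v(c)`: `v(a² + ab + b²) > v(a²)`.
-/

namespace H72AB

open NumberField IsDedekindDomain H9FC H9AB H88AB Pool.Agent.H71.FD

/-- the good places over `L`, in the product form -/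
theorem strong_w (f : ℕ) [NeZero f] (L : Type*) [Field L] [NumberField L] [IsCyclotomicExtension {f} ℚ L]
    (p : ℕ) [Fact p.Prime] (hp : 3 < p) (Ω : Type*) [Field Ω] [CharP Ω p]
    (hsym : SymL f L p Ω) (a b c : 𝓞 L) (hF : FSol L p a b c) (hC : CopAt L p a b c) (w : 𝓞 L →+* Ω)
    (ha : w a ≠ 0) (hb : w b ≠ 0) (hc : w c ≠ 0) :
    w a ^ 2 + w a * w b + w b ^ 2 = 0 ∧ w (actL f L (-1) a) ≠ 0 ∧ w (actL f L (-1) b) ≠ 0 ∧
      w (actL f L (-1) b) * w b = w (actL f L (-1) a) * w a := by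
  have hg : (1 : (ZMod f)ˣ) ∈ good f L w a b c := by
    rw [mem_good, actL_one, actL_one, actL_one]
    exact ⟨ha, hb, hc⟩
  obtain ⟨h1, h2, h3⟩ := strong_L f L p hp Ω hsym a b c hF hC w 1 hg
  rw [actL_one, actL_one] at h2 h3
  obtain ⟨h4, h5, -⟩ := mem_good.1 h1
  refine ⟨?_, h4, h5, ?_⟩
  · field_simp at h3
    linear_combination h3
  · field_simp at h2
    linear_combination h2

/-- **Theorem S**, one prime `p`. -/
theorem strong_K (f : ℕ) [NeZero f] (L : Type*) [Field L] [NumberField L] [IsCyclotomicExtension {f} ℚ L]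
    {K : Type*} [Field K] [NumberField K] (ι : K →+* L) (p : ℕ) [Fact p.Prime] (hp : 3 < p)
    (Ω : Type*) [Field Ω] [IsAlgClosed Ω] [CharP Ω p] (hsym : SymL f L p Ω)
    (a b c : K) (ha : a ≠ 0) (hb : b ≠ 0) (hc : c ≠ 0) (h : a ^ p + b ^ p + c ^ p = 0)
    (v : HeightOneSpectrum (𝓞 K)) (hv : (p : 𝓞 K) ∈ v.asIdeal)
    (hg : v.valuation K a = v.valuation K b ∧ v.valuation K b = v.valuation K c) :
    v.valuation K (a ^ 2 + a * b + b ^ 2) < v.valuation K (a ^ 2) := by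
  obtain ⟨l, a', b', c', hl, ea, eb, ec, hF, hcp, φ, hφ, h1, h2, h3⟩ := H3AB.scale_good Ω ha hb hc h v hv hg
  let _ : Algebra K L := ι.toAlgebra
  obtain ⟨w, hw⟩ := exists_lift_hom K L Ω φ
  have hmap : ∀ x : 𝓞 K, RingOfIntegers.mapRingHom ι x = algebraMap (𝓞 K) (𝓞 L) x := fun x => by
    apply RingOfIntegers.coe_injective
    rfl
  have hwx : ∀ x : 𝓞 K, w (RingOfIntegers.mapRingHom ι x) = φ x := fun x => by
    rw [hmap, ← hw]
    rfl
  obtain ⟨h4, -⟩ := strong_w f L p hp Ω hsym _ _ _ (fsol_map hF ι) (cop_map hcp ι) w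
    (by rw [hwx]; exact h1) (by rw [hwx]; exact h2) (by rw [hwx]; exact h3)
  rw [hwx, hwx, ← map_pow, ← map_pow, ← map_mul, ← map_add, ← map_add] at h4
  have h5 : a' ^ 2 + a' * b' + b' ^ 2 ∈ v.asIdeal := by
    rw [← hφ, RingHom.mem_ker]
    exact h4
  have h6 : v.valuation K ((a' ^ 2 + a' * b' + b' ^ 2 : 𝓞 K) : K) < 1 := by
    rw [HeightOneSpectrum.valuation_lt_one_iff_mem]
    exact h5
  have h7 : v.valuation K (a' : K) = 1 := by
    refine le_antisymm (v.valuation_le_one a') ?_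
    by_contra hcon
    rw [not_le, HeightOneSpectrum.valuation_lt_one_iff_mem, ← hφ, RingHom.mem_ker] at hcon
    exact h1 hcon
  have h8 : ((a' ^ 2 + a' * b' + b' ^ 2 : 𝓞 K) : K) = l ^ 2 * (a ^ 2 + a * b + b ^ 2) := by
    have e1 : ((a' ^ 2 + a' * b' + b' ^ 2 : 𝓞 K) : K) = (a' : K) ^ 2 + (a' : K) * (b' : K) + (b' : K) ^ 2 := by
      simp only [map_add, map_mul, map_pow]
    rw [e1, ea, eb]
    ring
  have h9 : v.valuation K l ^ 2 * v.valuation K (a ^ 2) = 1 := by
    rw [ea, map_mul] at h7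
    rw [map_pow, ← mul_pow, h7, one_pow]
  have hl0 : 0 < v.valuation K l ^ 2 := by
    rw [← map_pow]
    exact zero_lt_iff.2 ((map_ne_zero _).2 (pow_ne_zero 2 hl))
  rw [h8, map_mul, map_pow, ← h9] at h6
  exact (mul_lt_mul_iff_right₀ hl0).1 h6

/-- the symmetry holds outside a null set -/
theorem null_sym (f : ℕ) [NeZero f] (hf : 2 ≤ f) (L : Type) [Field L] [NumberField L]
    [IsCyclotomicExtension {f} ℚ L] :
    Null (fun p => ¬ ∀ (_ : Fact p.Prime), SymL f L p (AlgebraicClosure (ZMod p))) := by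
  classical
  obtain ⟨c, hcf, hc⟩ := Nat.exists_infinite_primes (f + 1)
  have hcf' : ¬ c ∣ f := fun h => by
    have := Nat.le_of_dvd (NeZero.pos f) h
    omega
  refine ((H59AB.null_ABE (fun k _ _ q W hW ε hε => H22GW.gapW k q W hW ε hε) hc hcf' hf
    (Nat.card (ZMod f)ˣ)).or (Null_of_bounded (G := fun p => p ≤ max 7 (max f c)) (max 7 (max f c))
    fun p _ hp => hp)).mono fun p hp hbad => ?_
  by_contra hcon
  rw [not_or, not_le] at hcon
  obtain ⟨h1, h2⟩ := hcon
  apply hbad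
  intro hfact
  have : NeZero (f * p) := ⟨mul_ne_zero (NeZero.ne f) hp.ne_zero⟩
  have h7 : 7 < p := lt_of_le_of_lt (le_max_left _ _) h2
  have hfp : f < p := lt_of_le_of_lt ((le_max_left _ _).trans (le_max_right _ _)) h2
  have hcp : c < p := lt_of_le_of_lt ((le_max_right _ _).trans (le_max_right _ _)) h2
  have hpf : ¬ p ∣ f := fun h => by
    have := Nat.le_of_dvd (NeZero.pos f) h
    omega
  refine symL_of f L p c _ (relL f p c hpf h7.le L hc.one_lt.le ?_ _) _ le_rfl (symE_of_not h1 _)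
  calc c < p := hcp
    _ ≤ f * p := Nat.le_mul_of_pos_left p (NeZero.pos f)

end H72AB
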